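import Pool.Agent.H87.BFL.Full
import Pool.Agent.H33.BFL.REN
import Pool.Agent.H1.BFL.JTB
import Pool.Agent.H4.BFL.JTE
import Pool.Agent.H39.BFL.Prob

/-!
# Row CMR of the board kbfo: closed labels are determined by the heights
-/

set_option autoImplicit false

namespace Pool.BFL

open Finset Real
open Pool.Agent.H49.Ent Pool.Agent.H32.Dense Pool.STK Pool.KS3
open CMR

theorem cmr_thm : CMRStmt := by
  classical
  intro n K η hn hη hη1
  obtain ⟨CM, hCM, hfull⟩ := CMR.full_gen n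
  obtain ⟨CR, hCR, hren⟩ := Pool.Agent.H33.BFL.ren_thm n K 3 (by norm_num)
  have hl2 : 0 < Real.log 2 := Real.log_pos (by norm_num)
  have hl21 : Real.log 2 ≤ 1 := by
    have := Real.log_two_lt_d9
    linarith only [hl2, this]
  have hn0 : (0 : ℝ) ≤ n := Nat.cast_nonneg n
  have hCR0 : 0 < CR := by linarith
  set t : ℝ := η * Real.log 2 / CR with ht
  have ht0 : 0 < t := by positivity
  set κ' : ℕ := ⌈4 * CM / t⌉₊ + 1 with hκ'
  set lf : ℝ := Real.log (n.factorial * (3 : ℝ) ^ n) with hlf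
  have hlf0 : 0 ≤ lf := by
    refine Real.log_nonneg ?_
    have h1 : (1 : ℝ) ≤ n.factorial := by exact_mod_cast Nat.one_le_iff_ne_zero.2 n.factorial_ne_zero
    have h2 : (1 : ℝ) ≤ 3 ^ n := one_le_pow₀ (by norm_num)
    nlinarith only [h1, h2]
  set D₁ : ℝ := 2 * n + CM * (n / Real.log 2 + 1) + 1 with hD₁
  have hD₁0 : 0 < D₁ := by positivity
  set κ : ℝ := t / (4 * D₁) with hκ
  have hκ0 : 0 < κ := by positivity
  set C₀ : ℝ := 3 * n * Real.log 2 + CM * (lf / Real.log 2 + 2 + κ') with hC₀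
  have hC₀0 : 0 ≤ C₀ := by positivity
  refine ⟨κ, hκ0, ⌈2 * (C₀ + 1) / t⌉₊ + 1, ?_⟩
  intro J r w₀ z M D q hz hOK k hk φ Gd S₀ hφ hS₀ hGd hb
  have hp := hOK.isLaw
  have hz1 : 2 * (C₀ + 1) / t ≤ z := by
    have h1 : ((⌈2 * (C₀ + 1) / t⌉₊ + 1 : ℕ) : ℝ) ≤ z := by exact_mod_cast hz
    push_cast at h1
    have h2 := Nat.le_ceil (2 * (C₀ + 1) / t)
    linarith only [h1, h2]
  have hz0 : (0 : ℝ) ≤ z := Nat.cast_nonneg z
  have hzt : 2 * (C₀ + 1) ≤ z * t := by rwa [div_le_iff₀ ht0] at hz1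
  set v : ℕ := w₀ + k * z with hv
  have hvL : v + z ≤ r := by
    have h1 := hOK.top
    have h2 : k * z ≤ M * z := Nat.mul_le_mul_right _ hk
    have h3 : (M + 1) * z = M * z + z := by ring
    omega
  set a : ℕ := ⌈κ * z / Real.log 2⌉₊ with ha
  have ha1 : κ * z / Real.log 2 ≤ a := Nat.le_ceil _
  have ha2 : (a : ℝ) ≤ κ * z / Real.log 2 + 1 := (Nat.ceil_lt_add_one (by positivity)).le
  have ha3 : Real.exp (κ * z) ≤ 2 ^ a := by
    rw [div_le_iff₀ hl2] at ha1
    rw [← Real.exp_log (show (0 : ℝ) < 2 ^ a by positivity), Real.log_pow]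
    exact Real.exp_le_exp.2 ha1
  set γ : ℕ := ⌈(lf + n * (κ * z)) / Real.log 2⌉₊ with hγ
  have hγ1 : (lf + n * (κ * z)) / Real.log 2 ≤ γ := Nat.le_ceil _
  have hγ2 : (γ : ℝ) ≤ (lf + n * (κ * z)) / Real.log 2 + 1 :=
    (Nat.ceil_lt_add_one (by positivity)).le
  have hγ3 : n.factorial * (3 : ℝ) ^ n ≤ Real.exp (-(κ * z)) ^ n * 2 ^ γ := by
    rw [div_le_iff₀ hl2] at hγ1
    have hpos : (0 : ℝ) < n.factorial * (3 : ℝ) ^ n := by positivity
    rw [← Real.exp_log hpos, ← Real.exp_nat_mul, ← Real.exp_log (show (0 : ℝ) < 2 ^ γ by positivity),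
      ← Real.exp_add, Real.log_pow]
    refine Real.exp_le_exp.2 ?_
    show lf ≤ n * -(κ * z) + γ * Real.log 2
    linarith only [hγ1]
  -- fullness
  have h1 := hfull K J r w₀ z M κ D q D.Γ (D.c k) (D.y₀ k) a v z κ' γ 0 hOK hvL (hOK.c_pt k hk)
    (hOK.c_T k hk) (by rw [CH_eq_zero hp.nonneg (hOK.c_wn k hk)]) (fun ω hω i =>
      (hOK.y₀_near k hk ω hω i).trans (div_le_div_of_nonneg_right ha3 (by positivity)))
    (by omega) hγ3
  set Y' : D.Ω → Fin n → ℕ := fun ω i => box a z (rel D J r v (D.y₀ k (D.c k ω)) ω i) with hY'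
  set θ : ℝ := n * (a + 2) * Real.log 2 + n * (κ * z) + CM * (z / κ' + γ + κ' + 1 + κ * z) with hθ
  have hθ0 : 0 ≤ θ := by positivity
  have hθ1 : θ + 1 ≤ t * z := by
    have e1 : (n : ℝ) * (a + 2) * Real.log 2 ≤ n * (κ * z) + 3 * n * Real.log 2 := by
      have e2 : (a : ℝ) * Real.log 2 ≤ κ * z + Real.log 2 := by
        have e3 := mul_le_mul_of_nonneg_right ha2 hl2.le
        have e4 : (κ * z / Real.log 2 + 1) * Real.log 2 = κ * z + Real.log 2 := by field_simp
        linarith only [e3, e4]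
      have e3 : (n : ℝ) * (a * Real.log 2) ≤ n * (κ * z + Real.log 2) :=
        mul_le_mul_of_nonneg_left e2 hn0
      nlinarith only [e3]
    have e2 : CM * (z / κ') ≤ t / 4 * z := by
      have e3 : 4 * CM / t ≤ κ' := by
        rw [hκ']
        push_cast
        have := Nat.le_ceil (4 * CM / t)
        linarith only [this]
      have hκ'0 : (0 : ℝ) < κ' := by
        rw [hκ']
        positivity
      rw [div_le_iff₀ ht0] at e3
      rw [← mul_div_assoc, div_le_iff₀ hκ'0]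
      nlinarith only [e3]
    have e3 : CM * (γ : ℝ) ≤ CM * ((lf + n * (κ * z)) / Real.log 2 + 1) :=
      mul_le_mul_of_nonneg_left hγ2 hCM
    have e4 : κ * D₁ = t / 4 := by
      rw [hκ]
      field_simp
    have e5 : θ ≤ κ * z * (2 * n + CM * (n / Real.log 2 + 1)) + t / 4 * z + C₀ := by
      rw [hθ, hC₀]
      have e6 : CM * ((lf + n * (κ * z)) / Real.log 2 + 1) =
          CM * (lf / Real.log 2) + CM * (n / Real.log 2) * (κ * z) + CM := by ring
      have e7 : CM * (z / κ' + γ + κ' + 1 + κ * z) = CM * (z / κ') + CM * γ + CM * κ' + CM +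
          CM * (κ * z) := by ring
      rw [e7]
      nlinarith only [e1, e2, e3, e6]
    have e6 : κ * z * (2 * n + CM * (n / Real.log 2 + 1)) ≤ t / 4 * z := by
      have e7 : κ * (2 * n + CM * (n / Real.log 2 + 1)) ≤ κ * D₁ :=
        mul_le_mul_of_nonneg_left (by rw [hD₁]; linarith only) hκ0.le
      calc κ * z * (2 * n + CM * (n / Real.log 2 + 1)) =
          (κ * (2 * n + CM * (n / Real.log 2 + 1))) * z := by ring
        _ ≤ (t / 4) * z := mul_le_mul_of_nonneg_right (e7.trans e4.le) hz0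
    have e7 : C₀ + 1 ≤ t * z / 2 := by linarith only [hzt]
    linarith only [hzt, e5, e6]
  exact by
   have hexp : CR * (θ + 1) / η ≤ z * Real.log 2 := by
     rw [div_le_iff₀ hη]
     have e1 : CR * t = η * Real.log 2 := by
       rw [ht]
       field_simp
     calc CR * (θ + 1) ≤ CR * (t * z) := mul_le_mul_of_nonneg_left hθ1 hCR0.le
       _ = (CR * t) * z := by ring
       _ = z * Real.log 2 * η := by rw [e1]; ring
   -- the polynomials in the unit box
   set ρ : ℝ := 2 ^ (a + 2) / 2 ^ v with hρ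
   set Pn : D.Γ → Pl n := fun x => Pool.Agent.H1.BFL.scl ρ
     (sh (fun i => D.y₀ k x i - 2 ^ (a + 1) / 2 ^ v) (φ x)) with hPn
   have hPn_eval : ∀ x (u : Fin n → ℝ), MvPolynomial.eval u (Pn x) =
       MvPolynomial.eval (fun i => ρ * u i + (D.y₀ k x i - 2 ^ (a + 1) / 2 ^ v)) (φ x) := by
     intro x u
     rw [hPn]
     show MvPolynomial.eval u (Pool.Agent.H1.BFL.scl ρ _) = _
     rw [Pool.Agent.H1.BFL.eval_scl, eval_sh]
   have hPn_deg : ∀ x, (Pn x).totalDegree ≤ K := fun x =>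
     (Pool.Agent.H1.BFL.totalDegree_scl _ _).trans (degree_sh _ _ (hφ x))
   have hv0 : (0 : ℝ) < 2 ^ v := by positivity
   have hz2 : (0 : ℝ) < 2 ^ z := by positivity
   have h2 := hren D.Ω D.Γ q (z + a + 2) Y' (D.c k) Pn (fun ω => Gd ω ∧ 0 < q ω) S₀ θ η hp
     (fun ω i => box_lt _ _ _) hPn_deg hθ0 hη hη1 ?_ ?_ hS₀ ?_ ?_
   · refine (Pool.Agent.H39.BFL.Pb_mono hp.nonneg fun ω hω hnot hall => ?_).trans h2
     apply hnot
     intro b hb'
     set u : Fin n → ℝ := fun i => (2 ^ v * (b i - D.y₀ k (D.c k ω) i) + 2 ^ (a + 1)) / 2 ^ (a + 2)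
       with hu
     have hu1 : (fun i => ρ * u i + (D.y₀ k (D.c k ω) i - 2 ^ (a + 1) / 2 ^ v)) = b := by
       funext i
       simp only [hρ, hu]
       field_simp
       ring
     have hu2 : ∀ i, |u i| ≤ 3 := by
       intro i
       have e1 := hOK.y₀_near k hk ω hω i
       have e2 := hb' i
       have e3 : |b i - D.y₀ k (D.c k ω) i| ≤ 2 * (2 ^ a / 2 ^ v) := by
         have e4 : Real.exp (κ * z) / 2 ^ v ≤ 2 ^ a / 2 ^ v :=
           div_le_div_of_nonneg_right ha3 hv0.le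
         have e5 : b i - D.y₀ k (D.c k ω) i = (b i - D.Y J ω i) + (D.Y J ω i - D.y₀ k (D.c k ω) i) := by
           ring
         rw [e5]
         refine (abs_add_le _ _).trans ?_
         linarith only [e1, e2, e4]
       have e4 : |2 ^ v * (b i - D.y₀ k (D.c k ω) i)| ≤ 2 * 2 ^ a := by
         rw [abs_mul, abs_of_pos hv0]
         calc 2 ^ v * |b i - D.y₀ k (D.c k ω) i| ≤ 2 ^ v * (2 * (2 ^ a / 2 ^ v)) :=
               mul_le_mul_of_nonneg_left e3 hv0.le
           _ = 2 * 2 ^ a := by field_simp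
       simp only [hu]
       rw [abs_div, abs_of_pos (show (0 : ℝ) < 2 ^ (a + 2) by positivity),
         div_le_iff₀ (by positivity)]
       refine (abs_add_le _ _).trans ?_
       rw [abs_of_pos (show (0 : ℝ) < 2 ^ (a + 1) by positivity), pow_succ, pow_succ (2 : ℝ) (a + 1),
         pow_succ (2 : ℝ) a]
       have : (0 : ℝ) < 2 ^ a := by positivity
       linarith only [e4, this]
     have e1 := hall u hu2
     rw [hPn_eval, hu1] at e1
     refine e1.trans (mul_le_mul_of_nonneg_right ?_ (hS₀ _).le)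
     refine Real.exp_le_exp.2 (hexp.trans ?_)
     nlinarith only [hl21]
   · -- entropy
     have e1 : (n : ℝ) * (((z + a + 2 : ℕ) : ℝ) * Real.log 2) = n * (z * Real.log 2) +
         n * (a + 2) * Real.log 2 := by
       push_cast
       ring
     rw [e1]
     have e2 : (n : ℝ) * (z * Real.log 2 - κ * z - 0) = n * (z * Real.log 2) - n * (κ * z) := by
       ring
     rw [e2] at h1
     rw [hθ]
     linarith only [h1]
   · refine le_trans (Pool.Agent.H39.BFL.Pb_mono hp.nonneg fun ω hω hnot hG => ?_)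
       (hGd.trans (by linarith only [hη]))
     exact hnot ⟨hG, hω⟩
   · refine hexp.trans (mul_le_mul_of_nonneg_right ?_ hl2.le)
     push_cast
     have : (0 : ℝ) ≤ a := Nat.cast_nonneg a
     linarith only
   · rintro ω ⟨hG, hω⟩
     set x₀ : Fin n → ℝ := relx D J v (D.y₀ k (D.c k ω)) ω with hx₀
     have hb0 : ∀ i, |x₀ i| ≤ 2 ^ a := by
       intro i
       have e1 := hOK.y₀_near k hk ω hω i
       have e4 : Real.exp (κ * z) / 2 ^ v ≤ 2 ^ a / 2 ^ v :=
         div_le_div_of_nonneg_right ha3 hv0.le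
       simp only [hx₀, relx]
       rw [abs_mul, abs_of_pos hv0]
       calc 2 ^ v * |D.Y J ω i - D.y₀ k (D.c k ω) i| ≤ 2 ^ v * (2 ^ a / 2 ^ v) :=
             mul_le_mul_of_nonneg_left (e1.trans e4) hv0.le
         _ = 2 ^ a := by field_simp
     refine ⟨fun i => (x₀ i + 2 ^ (a + 1)) / 2 ^ (a + 2), fun i => ?_, ?_⟩
     · have b1 := rel_near D J hvL (D.y₀ k (D.c k ω)) ω i
       have b0 := hb0 i
       have b2 : |rel D J r v (D.y₀ k (D.c k ω)) ω i| ≤ 2 ^ (a + 1) := by
         have e1 : (1 : ℝ) / 2 ^ z ≤ 1 := by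
           rw [div_le_one hz2]
           exact one_le_pow₀ (by norm_num)
         have e2 : (1 : ℝ) ≤ 2 ^ a := one_le_pow₀ (by norm_num)
         have e3 := abs_le.1 b0
         have e4 := abs_le.1 b1
         rw [pow_succ, abs_le]
         constructor <;> linarith only [e1, e2, e3, e4]
       have b3 := box_near a z b2
       rw [le_div_iff₀ (by positivity), ← abs_of_pos (show (0 : ℝ) < 2 ^ (z + a + 2) by positivity),
         ← abs_mul, abs_of_pos (show (0 : ℝ) < 2 ^ (z + a + 2) by positivity)]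
       have e1 : ((x₀ i + 2 ^ (a + 1)) / 2 ^ (a + 2) - (Y' ω i : ℝ) / 2 ^ (z + a + 2)) *
           2 ^ (z + a + 2) = -(((box a z (rel D J r v (D.y₀ k (D.c k ω)) ω i) : ℝ) -
             2 ^ z * (rel D J r v (D.y₀ k (D.c k ω)) ω i + 2 ^ (a + 1))) +
           2 ^ z * (rel D J r v (D.y₀ k (D.c k ω)) ω i - x₀ i)) := by
         have e2 : (2 : ℝ) ^ (z + a + 2) = 2 ^ z * 2 ^ (a + 2) := by
           rw [← pow_add]
           congr 1
         rw [e2]
         simp only [hY']
         field_simp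
         ring
       rw [e1, abs_neg]
       refine (abs_add_le _ _).trans ?_
       have e2 : |2 ^ z * (rel D J r v (D.y₀ k (D.c k ω)) ω i - x₀ i)| ≤ 1 := by
         rw [abs_mul, abs_of_pos hz2]
         calc 2 ^ z * _ ≤ 2 ^ z * (1 / 2 ^ z) := mul_le_mul_of_nonneg_left b1 hz2.le
           _ = 1 := by field_simp
       linarith only [b3, e2]
     · rw [hPn_eval]
       have e1 : (fun i => ρ * ((x₀ i + 2 ^ (a + 1)) / 2 ^ (a + 2)) +
           (D.y₀ k (D.c k ω) i - 2 ^ (a + 1) / 2 ^ v)) = D.Y J ω := by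
         funext i
         simp only [hρ, hx₀, relx]
         field_simp
         ring
       rw [e1]
       exact hb ω hG

end Pool.BFL
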