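import Pool.Agent.H19.BFL.Stmts3
import Pool.Agent.H45.KAL.MKC

/-!
# Fullness of the base position in a box, given a closed label

Consequence of the entropic multilinear Kakeya inequality: the next digits of the base position,
after the digit `v`, are full given any label which is almost a function of the line and of the
window of length `2 ^ (-v)`.
-/

set_option autoImplicit false

namespace Pool.BFL.CMR

open Finset Real
open Pool.Agent.H49.Ent Pool.Agent.H32.Dense Pool.STK Pool.KS3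

/-- The digits of a number in the interval of length `2 ^ (a + 2)` with the centre `0`. -/
noncomputable def box (a L : ℕ) (x : ℝ) : ℕ :=
  min ⌊(2 : ℝ) ^ L * (x + 2 ^ (a + 1))⌋₊ (2 ^ (L + a + 2) - 1)

theorem box_lt (a L : ℕ) (x : ℝ) : box a L x < 2 ^ (L + a + 2) := by
  unfold box
  have h : 0 < 2 ^ (L + a + 2) := by positivity
  omega

theorem box_near (a L : ℕ) {x : ℝ} (h : |x| ≤ 2 ^ (a + 1)) :
    |(box a L x : ℝ) - 2 ^ L * (x + 2 ^ (a + 1))| ≤ 1 := by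
  obtain ⟨h1, h2⟩ := abs_le.1 h
  set z : ℝ := (2 : ℝ) ^ L * (x + 2 ^ (a + 1)) with hz
  have h0 : 0 ≤ z := mul_nonneg (by positivity) (by linarith)
  have h3 : z ≤ ((2 ^ (L + a + 2) : ℕ) : ℝ) := by
    have e1 : x + 2 ^ (a + 1) ≤ (2 : ℝ) ^ (a + 2) := by
      rw [pow_succ (2 : ℝ) (a + 1)]
      linarith
    have e2 : z ≤ (2 : ℝ) ^ L * 2 ^ (a + 2) := mul_le_mul_of_nonneg_left e1 (by positivity)
    refine e2.trans (le_of_eq ?_)
    push_cast
    rw [← pow_add]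
    congr 1
  have h4 := Nat.floor_le h0
  have h5 := Nat.lt_floor_add_one z
  have hpos : 1 ≤ 2 ^ (L + a + 2) := Nat.one_le_two_pow
  have hb : box a L x = min ⌊z⌋₊ (2 ^ (L + a + 2) - 1) := rfl
  rw [hb]
  rcases le_or_gt ⌊z⌋₊ (2 ^ (L + a + 2) - 1) with h6 | h6
  · rw [min_eq_left h6, abs_le]
    constructor <;> linarith
  · rw [min_eq_right h6.le]
    have h7 : ((2 ^ (L + a + 2) : ℕ) : ℝ) ≤ (⌊z⌋₊ : ℝ) := by
      have : 2 ^ (L + a + 2) ≤ ⌊z⌋₊ := by omega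
      exact_mod_cast this
    rw [Nat.cast_sub hpos, abs_le]
    push_cast at h3 h7 ⊢
    constructor <;> linarith

variable {n : ℕ}

/-- The position relative to a centre, in units `2 ^ (-v)`, from the digits to `r`. -/
noncomputable def rel (D : Dat n) (J r v : ℕ) (yc : Fin n → ℝ) (ω : D.Ω) (i : Fin n) : ℝ :=
  2 ^ v * ((D.cell J r ω i : ℝ) / 2 ^ r - yc i)

/-- The exact relative position. -/
noncomputable def relx (D : Dat n) (J v : ℕ) (yc : Fin n → ℝ) (ω : D.Ω) (i : Fin n) : ℝ :=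
  2 ^ v * (D.Y J ω i - yc i)

theorem rel_near (D : Dat n) (J : ℕ) {r v L : ℕ} (h : v + L ≤ r) (yc : Fin n → ℝ) (ω : D.Ω)
    (i : Fin n) : |rel D J r v yc ω i - relx D J v yc ω i| ≤ 1 / 2 ^ L := by
  unfold rel relx Dat.cell
  rw [← mul_sub, abs_mul, abs_of_pos (by positivity)]
  have h1 := Int.floor_le ((2 : ℝ) ^ r * D.Y J ω i)
  have h2 := Int.lt_floor_add_one ((2 : ℝ) ^ r * D.Y J ω i)
  have hr : (0 : ℝ) < 2 ^ r := by positivity
  have h3 : |((⌊(2 : ℝ) ^ r * D.Y J ω i⌋ : ℤ) : ℝ) / 2 ^ r - yc i - (D.Y J ω i - yc i)| ≤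
      1 / 2 ^ r := by
    rw [le_div_iff₀ hr, ← abs_of_pos hr, ← abs_mul, abs_of_pos hr, abs_le]
    have e1 : (((⌊(2 : ℝ) ^ r * D.Y J ω i⌋ : ℤ) : ℝ) / 2 ^ r - yc i - (D.Y J ω i - yc i)) *
        2 ^ r = ((⌊(2 : ℝ) ^ r * D.Y J ω i⌋ : ℤ) : ℝ) - 2 ^ r * D.Y J ω i := by
      field_simp
      ring
    rw [e1]
    constructor <;> linarith
  calc (2 : ℝ) ^ v * _ ≤ 2 ^ v * (1 / 2 ^ r) := mul_le_mul_of_nonneg_left h3 (by positivity)
    _ ≤ 1 / 2 ^ L := by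
      rw [mul_one_div, div_le_div_iff₀ hr (by positivity), one_mul, ← pow_add]
      exact pow_le_pow_right₀ (by norm_num) h

theorem Det.refl' {Ω S : Type} (p : Ω → ℝ) (X : Ω → S) : Det p X X := fun _ _ _ _ h => h

/-- The time digits after `v`, up to `v + L`. -/
def tau (D : Dat n) (J v L : ℕ) (ω : D.Ω) : ℕ := (D.T ω % 2 ^ (J - v)) / 2 ^ (J - v - L)

theorem tau_lt (D : Dat n) {J v L : ℕ} (h : v + L ≤ J) (ω : D.Ω) : tau D J v L ω < 2 ^ L := by
  unfold tau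
  rw [Nat.div_lt_iff_lt_mul (by positivity), ← pow_add]
  have e1 : L + (J - v - L) = J - v := by omega
  rw [e1]
  exact Nat.mod_lt _ (by positivity)

theorem time_eq (D : Dat n) {J v L : ℕ} (h : v + L ≤ J) (ω : D.Ω) :
    |2 ^ v * ((D.T ω : ℝ) / 2 ^ J) - (((D.T ω / 2 ^ (J - v) : ℕ) : ℝ) +
      (tau D J v L ω : ℝ) / 2 ^ L)| ≤ 1 / 2 ^ L := by
  set R := 2 ^ (J - v - L) with hR
  have hRp : 0 < R := by positivity
  have e1 : 2 ^ (J - v) = 2 ^ L * R := by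
    rw [hR, ← pow_add]
    congr 1
    omega
  have e2 : D.T ω = 2 ^ (J - v) * (D.T ω / 2 ^ (J - v)) + D.T ω % 2 ^ (J - v) :=
    (Nat.div_add_mod _ _).symm
  have e3 : D.T ω % 2 ^ (J - v) = R * tau D J v L ω + (D.T ω % 2 ^ (J - v)) % R :=
    (Nat.div_add_mod _ _).symm
  have e4 : (D.T ω % 2 ^ (J - v)) % R < R := Nat.mod_lt _ hRp
  set q := D.T ω / 2 ^ (J - v) with hq
  set t := tau D J v L ω with ht
  set s := (D.T ω % 2 ^ (J - v)) % R with hs
  have e5 : (D.T ω : ℝ) = 2 ^ L * R * q + (R * t + s) := by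
    have : D.T ω = 2 ^ L * R * q + (R * t + s) := by rw [← e1, ← e3]; exact e2
    exact_mod_cast this
  have hJ : (2 : ℝ) ^ J = 2 ^ v * (2 ^ L * R) := by
    have : 2 ^ J = 2 ^ v * (2 ^ L * R) := by
      rw [← e1, ← pow_add]
      congr 1
      omega
    exact_mod_cast this
  have hR' : (0 : ℝ) < R := by exact_mod_cast hRp
  have e6 : 2 ^ v * ((D.T ω : ℝ) / 2 ^ J) - ((q : ℝ) + (t : ℝ) / 2 ^ L) =
      (s : ℝ) / (2 ^ L * R) := by
    rw [e5, hJ]
    field_simp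
    ring
  rw [e6, abs_of_nonneg (by positivity), div_le_div_iff₀ (by positivity) (by positivity), one_mul]
  have e7 : (s : ℝ) ≤ R := by exact_mod_cast e4.le
  nlinarith [show (0 : ℝ) < 2 ^ L by positivity]

/-- The time digits are full given the line and a label. -/
theorem time_full {D : Dat n} {K J r w₀ z M : ℕ} {κ : ℝ} {q : D.Ω → ℝ}
    (hOK : D.Ok K J r w₀ z M κ q) {Γ' : Type} (cx : D.Ω → Γ') {v L : ℕ} (h : v + L ≤ J)
    {e₁ : ℝ} (he : CH q cx (D.wn J v) ≤ e₁) :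
    L * Real.log 2 - κ * z - e₁ ≤ CH q (tau D J v L) (fun ω => ((D.ln ω, cx ω), cx ω)) := by
  have hp := hOK.isLaw
  have hp0 := hp.nonneg
  have hl2 : 0 < Real.log 2 := Real.log_pos (by norm_num)
  have h1 := hOK.time
  have h2 := CH_le_add hp0 D.T (fun ω => D.T ω / 2 ^ (J - v)) D.ln
  have h3 := CH_le_add hp0 D.T (tau D J v L) (fun ω => (D.T ω / 2 ^ (J - v), D.ln ω))
  have h4 : CH q (fun ω => D.T ω / 2 ^ (J - v)) D.ln ≤ v * Real.log 2 := by
    have h5 := CH_le_card hp0 hp.sum_one (fun ω => D.T ω / 2 ^ (J - v)) D.ln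
      (fun _ => Finset.range (2 ^ v)) (fun ω _ => by
        rw [Finset.mem_range, Nat.div_lt_iff_lt_mul (by positivity), ← pow_add]
        have e1 : v + (J - v) = J := by omega
        rw [e1]
        exact hOK.T_lt ω)
    rw [Ex_const hp.sum_one, Finset.card_range] at h5
    push_cast at h5
    rwa [Real.log_pow] at h5
  have h5 : CH q D.T (fun ω => (tau D J v L ω, (D.T ω / 2 ^ (J - v), D.ln ω))) ≤
      (J - v - L) * Real.log 2 := by
    have h6 := CH_le_card hp0 hp.sum_one D.T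
      (fun ω => (tau D J v L ω, (D.T ω / 2 ^ (J - v), D.ln ω)))
      (fun x => Finset.Ico (2 ^ (J - v) * x.2.1 + 2 ^ (J - v - L) * x.1)
        (2 ^ (J - v) * x.2.1 + 2 ^ (J - v - L) * x.1 + 2 ^ (J - v - L))) (fun ω _ => by
        have e2 := Nat.div_add_mod (D.T ω) (2 ^ (J - v))
        have e3 : 2 ^ (J - v - L) * tau D J v L ω + (D.T ω % 2 ^ (J - v)) % 2 ^ (J - v - L) =
          D.T ω % 2 ^ (J - v) := Nat.div_add_mod _ _
        have e4 : (D.T ω % 2 ^ (J - v)) % 2 ^ (J - v - L) < 2 ^ (J - v - L) :=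
          Nat.mod_lt _ (by positivity)
        rw [Finset.mem_Ico]
        show 2 ^ (J - v) * (D.T ω / 2 ^ (J - v)) + 2 ^ (J - v - L) * tau D J v L ω ≤ D.T ω ∧
          D.T ω < 2 ^ (J - v) * (D.T ω / 2 ^ (J - v)) + 2 ^ (J - v - L) * tau D J v L ω +
            2 ^ (J - v - L)
        set A := 2 ^ (J - v) * (D.T ω / 2 ^ (J - v))
        set B := 2 ^ (J - v - L) * tau D J v L ω
        set R := 2 ^ (J - v - L)
        set S := (D.T ω % 2 ^ (J - v)) % R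
        set U := D.T ω % 2 ^ (J - v)
        constructor
        · linarith [Nat.zero_le S]
        · linarith)
    have h7 : ∀ a b : ℕ, (Finset.Ico a (a + b)).card = b := by
      intro a b
      rw [Nat.card_Ico, Nat.add_sub_cancel_left]
    simp only [h7] at h6
    have h8 : Ex q (fun _ => Real.log ((2 ^ (J - v - L) : ℕ) : ℝ)) =
        Real.log ((2 ^ (J - v - L) : ℕ) : ℝ) := Ex_const hp.sum_one _
    rw [h8] at h6
    push_cast at h6
    rw [Real.log_pow, Nat.cast_sub (by omega), Nat.cast_sub (by omega)] at h6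
    exact h6
  have h6 : CH q (tau D J v L) (fun ω => (D.T ω / 2 ^ (J - v), D.ln ω)) ≤
      CH q (tau D J v L) (fun ω => ((D.ln ω, cx ω), cx ω)) + e₁ := by
    have h7 := CH_le_add hp0 (tau D J v L) cx (fun ω => (D.T ω / 2 ^ (J - v), D.ln ω))
    have h8 : CH q cx (fun ω => (D.T ω / 2 ^ (J - v), D.ln ω)) ≤ e₁ := by
      refine le_trans (CH_mono_cond hp0 ?_) he
      intro ω ω' _ _ hw
      simp only [Prod.mk.injEq] at hw
      exact Prod.ext hw.2 hw.1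
    have h9 : CH q (tau D J v L) (fun ω => (cx ω, (D.T ω / 2 ^ (J - v), D.ln ω))) ≤
        CH q (tau D J v L) (fun ω => ((D.ln ω, cx ω), cx ω)) := by
      refine CH_mono_cond hp0 ?_
      intro ω ω' _ _ hw
      simp only [Prod.mk.injEq] at hw ⊢
      exact ⟨⟨hw.2.2, hw.1⟩, hw.1⟩
    linarith
  have h7 : (J : ℝ) * Real.log 2 = v * Real.log 2 + L * Real.log 2 +
      (J - v - L) * Real.log 2 := by ring
  linarith

/-- **Fullness in a box.** -/
theorem full_gen (n : ℕ) : ∃ C : ℝ, 0 ≤ C ∧ ∀ (K J r w₀ z M : ℕ) (κ : ℝ) (D : Dat n)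
    (q : D.Ω → ℝ) (Γ' : Type) (cx : D.Ω → Γ') (yc : Γ' → Fin n → ℝ) (a v L κ' γ : ℕ) (e₁ : ℝ),
    D.Ok K J r w₀ z M κ q → v + L ≤ r → Det q D.pt cx →
    Det q cx (fun ω => D.T ω / 2 ^ (J - v)) → CH q cx (D.wn J v) ≤ e₁ →
    (∀ ω, 0 < q ω → ∀ i, |D.Y J ω i - yc (cx ω) i| ≤ 2 ^ a / 2 ^ v) → 1 ≤ κ' →
    n.factorial * (3 : ℝ) ^ n ≤ Real.exp (-(κ * z)) ^ n * 2 ^ γ →
    n * (L * Real.log 2 - κ * z - e₁) ≤
      CH q (fun ω i => box a L (rel D J r v (yc (cx ω)) ω i)) cx +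
        C * (L / κ' + γ + κ' + 1 + κ * L) := by
  classical
  obtain ⟨C, hC, hmkc⟩ := mkc_thm n 3 (by norm_num)
  refine ⟨C, hC, ?_⟩
  intro K J r w₀ z M κ D q Γ' cx yc a v L κ' γ e₁ hOK hvL hcx hTw he hyc hκ' hγ
  have hp := hOK.isLaw
  obtain ⟨e, he0, hex, hnc⟩ := hOK.nc
  have hvJ : v + L ≤ J := hvL.trans hOK.r_le
  -- the window as a function of the label
  set tw : Γ' → ℕ := fun x => if h : ∃ ω, 0 < q ω ∧ cx ω = x then
    D.T h.choose / 2 ^ (J - v) else 0 with htw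
  have htw1 : ∀ ω, 0 < q ω → tw (cx ω) = D.T ω / 2 ^ (J - v) := by
    intro ω hω
    have hex : ∃ ω', 0 < q ω' ∧ cx ω' = cx ω := ⟨ω, hω, rfl⟩
    simp only [htw]
    rw [dif_pos hex]
    exact hTw _ _ hex.choose_spec.1 hω hex.choose_spec.2
  have h1 := hmkc D.Ω Γ' (D.Λ × Γ') D.Z q L κ' γ (Real.exp (-(κ * z))) κ D.pt e
    (fun ω i => box a L (rel D J r v (yc (cx ω)) ω i)) (tau D J v L) cx
    (fun ω => (D.ln ω, cx ω))
    (fun l i => 2 ^ v * (D.A l.1 i - yc l.2 i) + (tw l.2 : ℝ) * D.E l.1 i + 2 ^ (a + 1))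
    (fun l i => D.E l.1 i) hp (tau_lt D hvJ) ?_ ?_ hcx ?_ ?_ (Real.exp_pos _) he0 hex ?_ hγ hκ'
  · have h2 := time_full hOK cx hvJ he
    have h3 := mul_le_mul_of_nonneg_left h2 (Nat.cast_nonneg (α := ℝ) n)
    linarith
  · intro ω ω' hω hω' h
    have e1 := hcx _ _ hω hω' h
    have e2 := hOK.pt_Y _ _ hω hω' h
    funext i
    simp only [rel, e1, e2]
  · intro ω ω' hω hω' h
    have e1 := hOK.pt_T _ _ hω hω' h
    unfold tau
    rw [e1]
  · intro ω hω i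
    have hL : (0 : ℝ) < 2 ^ L := by positivity
    have b1 := rel_near D J hvL (yc (cx ω)) ω i
    have b0 : |relx D J v (yc (cx ω)) ω i| ≤ 2 ^ a := by
      unfold relx
      rw [abs_mul, abs_of_pos (by positivity)]
      calc (2 : ℝ) ^ v * |D.Y J ω i - yc (cx ω) i| ≤ 2 ^ v * (2 ^ a / 2 ^ v) :=
            mul_le_mul_of_nonneg_left (hyc ω hω i) (by positivity)
        _ = 2 ^ a := by field_simp
    have b2 : |rel D J r v (yc (cx ω)) ω i| ≤ 2 ^ (a + 1) := by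
      have e1 : (1 : ℝ) / 2 ^ L ≤ 1 := by
        rw [div_le_one hL]
        exact one_le_pow₀ (by norm_num)
      have e2 : (1 : ℝ) ≤ 2 ^ a := one_le_pow₀ (by norm_num)
      have e3 := abs_le.1 b0
      have e4 := abs_le.1 b1
      rw [pow_succ, abs_le]
      constructor <;> linarith
    have b3 := box_near a L b2
    have b4 : |2 ^ v * ((D.T ω : ℝ) / 2 ^ J) - (((D.T ω / 2 ^ (J - v) : ℕ) : ℝ) +
      (tau D J v L ω : ℝ) / 2 ^ L)| ≤ 1 / 2 ^ L := time_eq D hvJ ω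
    have b5 : |D.E (D.ln ω) i| ≤ 1 := hOK.E_le _ _
    show |(box a L (rel D J r v (yc (cx ω)) ω i) : ℝ) / 2 ^ L -
      ((2 ^ v * (D.A (D.ln ω) i - yc (cx ω) i) + (tw (cx ω) : ℝ) * D.E (D.ln ω) i +
        2 ^ (a + 1)) + (tau D J v L ω : ℝ) / 2 ^ L * D.E (D.ln ω) i)| ≤ 3 / 2 ^ L
    rw [htw1 ω hω]
    have b6 : |(box a L (rel D J r v (yc (cx ω)) ω i) : ℝ) / 2 ^ L -
        (rel D J r v (yc (cx ω)) ω i + 2 ^ (a + 1))| ≤ 1 / 2 ^ L := by
      rw [le_div_iff₀ hL, ← abs_of_pos hL, ← abs_mul, abs_of_pos hL]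
      refine le_trans (le_of_eq ?_) b3
      congr 1
      field_simp
    have b7 : relx D J v (yc (cx ω)) ω i = 2 ^ v * (D.A (D.ln ω) i - yc (cx ω) i) +
        2 ^ v * ((D.T ω : ℝ) / 2 ^ J) * D.E (D.ln ω) i := by
      unfold relx Dat.Y
      ring
    have b8 : |(2 ^ v * ((D.T ω : ℝ) / 2 ^ J) - (((D.T ω / 2 ^ (J - v) : ℕ) : ℝ) +
        (tau D J v L ω : ℝ) / 2 ^ L)) * D.E (D.ln ω) i| ≤ 1 / 2 ^ L := by
      rw [abs_mul]
      calc _ ≤ 1 / 2 ^ L * 1 := mul_le_mul b4 b5 (abs_nonneg _) (by positivity)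
        _ = _ := mul_one _
    have e1 : (box a L (rel D J r v (yc (cx ω)) ω i) : ℝ) / 2 ^ L -
        ((2 ^ v * (D.A (D.ln ω) i - yc (cx ω) i) + ((D.T ω / 2 ^ (J - v) : ℕ) : ℝ) *
          D.E (D.ln ω) i + 2 ^ (a + 1)) + (tau D J v L ω : ℝ) / 2 ^ L * D.E (D.ln ω) i) =
        ((box a L (rel D J r v (yc (cx ω)) ω i) : ℝ) / 2 ^ L -
          (rel D J r v (yc (cx ω)) ω i + 2 ^ (a + 1))) +
        (rel D J r v (yc (cx ω)) ω i - relx D J v (yc (cx ω)) ω i) +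
        (2 ^ v * ((D.T ω : ℝ) / 2 ^ J) - (((D.T ω / 2 ^ (J - v) : ℕ) : ℝ) +
          (tau D J v L ω : ℝ) / 2 ^ L)) * D.E (D.ln ω) i := by
      rw [b7]
      ring
    rw [e1]
    have e2 : (3 : ℝ) / 2 ^ L = 1 / 2 ^ L + 1 / 2 ^ L + 1 / 2 ^ L := by ring
    rw [e2]
    exact (abs_add_le _ _).trans (add_le_add ((abs_add_le _ _).trans (add_le_add b6 b1)) b8)
  · intro ω i
    exact (hOK.E_le _ _).trans (by norm_num)
  · intro ω hω u hu
    refine le_trans (le_of_eq ?_) (hnc ω hω u hu)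
    unfold Pb
    refine Finset.sum_congr rfl fun ω' _ => ?_
    congr 1

end Pool.BFL.CMR
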